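import Pool.Agent.W809.ZQ.Stm

/-! ZQ-POW: powers are central if `LL C` is central. -/

set_option autoImplicit false

open Set Filter Topology

namespace Pool.Agent.W863.ZQ

open Pool.Agent.W809.ZQ

theorem comm_closure {G : Type*} [Group G] [TopologicalSpace G] [IsTopologicalGroup G] [T2Space G]
    (Z : Subgroup G) (h : ∀ x ∈ Z, ∀ y ∈ Z, x * y = y * x) :
    ∀ x ∈ Z.topologicalClosure, ∀ y ∈ Z.topologicalClosure, x * y = y * x := by
  have h1 : ∀ x ∈ Z, ∀ y ∈ closure (Z : Set G), x * y = y * x := by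
    intro x hx
    have hcl : IsClosed {y : G | x * y = y * x} := isClosed_eq (by fun_prop) (by fun_prop)
    exact closure_minimal (fun y hy => h x hx y hy) hcl
  intro x hx y hy
  have hcl : IsClosed {x : G | x * y = y * x} := isClosed_eq (by fun_prop) (by fun_prop)
  exact closure_minimal (s := (Z : Set G)) (fun z hz => h1 z hz y hy) hcl hx

theorem recur {G : Type*} [Group G] [TopologicalSpace G] [IsTopologicalGroup G] [CompactSpace G]
    (c : G) {O : Set G} (hO : O ∈ 𝓝 (1 : G)) : ∃ k : ℕ, 1 ≤ k ∧ c ^ k ∈ O := by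
  obtain ⟨x, hx⟩ := exists_clusterPt_of_compactSpace (map (fun i : ℕ => c ^ i) atTop)
  have h1 : Tendsto (fun p : G × G => p.1⁻¹ * p.2) (𝓝 x ×ˢ 𝓝 x) (𝓝 1) := by
    have h2 : Continuous (fun p : G × G => p.1⁻¹ * p.2) := by fun_prop
    have h3 := h2.tendsto (x, x)
    simp only [inv_mul_cancel] at h3
    rwa [nhds_prod_eq] at h3
  have h4 := h1 hO
  rw [mem_map, mem_prod_same_iff] at h4
  obtain ⟨V, hV, hVO⟩ := h4
  have h5 : ∃ᶠ i : ℕ in atTop, c ^ i ∈ V := by
    have h6 : MapClusterPt x atTop (fun i : ℕ => c ^ i) := hx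
    exact h6.frequently hV
  rw [frequently_atTop] at h5
  obtain ⟨i, -, hi⟩ := h5 0
  obtain ⟨j, hj, hjV⟩ := h5 (i + 1)
  refine ⟨j - i, by omega, ?_⟩
  have h6 : (c ^ i)⁻¹ * c ^ j ∈ O := hVO (Set.mk_mem_prod hi hjV)
  have h7 : c ^ (j - i) = (c ^ i)⁻¹ * c ^ j := by
    rw [eq_inv_mul_iff_mul_eq, ← pow_add]
    congr 1
    omega
  rw [h7]
  exact h6

theorem pow (hADD : S_ADD) (hLC : S_LC) : S_POW := by
  intro n C hPC hNC hcen c hc
  set Z : Subgroup (U n) := Subgroup.zpowers c with hZ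
  set A := Z.topologicalClosure with hA
  have hAcl : IsClosed (A : Set (U n)) := Z.isClosed_topologicalClosure
  have hAcomm : ∀ x ∈ A, ∀ y ∈ A, x * y = y * x := by
    refine comm_closure Z ?_
    rintro _ ⟨i, rfl⟩ _ ⟨j, rfl⟩
    exact (Commute.refl c).zpow_zpow i j
  have hZA : Z ≤ A := Z.le_topologicalClosure
  have hcA : c ∈ A := hZA (Subgroup.mem_zpowers c)
  have hD : IsClosed ((A ⊓ C : Subgroup (U n)) : Set (U n)) := by
    refine hPC (A ⊓ C) inf_le_right ?_ ?_
    · intro x hx hxc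
      refine ⟨?_, hx⟩
      have h1 : closure ((A ⊓ C : Subgroup (U n)) : Set (U n)) ⊆ (A : Set (U n)) :=
        closure_minimal (fun y hy => hy.1) hAcl
      exact h1 hxc
    · intro h
      obtain ⟨a, ha, b, hb, hab⟩ := hNC
      rw [← h] at ha hb
      exact hab (hAcomm a ha.1 b hb.1)
  have hZD : Z ≤ A ⊓ C := by
    rw [hZ, Subgroup.zpowers_le]
    exact ⟨hcA, hc⟩
  have hAD : A ≤ A ⊓ C := Z.topologicalClosure_minimal hZD hD
  have hAC : A ≤ C := hAD.trans inf_le_right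
  set S := LS hADD A hAcl with hS
  have hfin : Module.Finite ℝ S := inferInstance
  let b := Module.finBasis ℝ S
  obtain ⟨O, hO, hO2⟩ := hLC n A hAcl _ (fun j => ((b j : S) : Mt n)) (fun j => (b j).2) (by
    intro X hX
    have hXS : X ∈ S := hX
    have h1 : ((∑ i, (b.repr ⟨X, hXS⟩) i • b i : S) : Mt n) = X := by rw [b.sum_repr]
    rw [← h1, Submodule.coe_sum]
    refine Submodule.sum_mem _ fun i _ => ?_
    rw [Submodule.coe_smul]
    exact Submodule.smul_mem _ _ (Submodule.subset_span ⟨i, rfl⟩)) 1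
    one_pos
  obtain ⟨k, hk, hkO⟩ := recur c hO
  refine ⟨k, hk, fun a ha => ?_⟩
  obtain ⟨t, -, ht⟩ := hO2 (c ^ k) (A.pow_mem hcA k) hkO
  have h1 : Commute (PE (fun j => ((b j : S) : Mt n)) t) (a : Mt n) := by
    refine PE_commute (fun j => ?_) t
    have h2 := hcen _ (LL_mono hAC (b j).2) a ha
    exact h2.symm
  rw [← ht] at h1
  apply Subtype.ext
  rw [Submonoid.coe_mul, Submonoid.coe_mul]
  exact h1

end Pool.Agent.W863.ZQ
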